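import Pool.Agent.Lib_MP_8c2fb0_lc.Virtually

/-!
# MP_8c2fb0_lc: finitely generated groups of isometries

Every finitely generated group `Γ` of isometries of the sphere has a normal subgroup `Γ'` of finite
index such that for no pair `g, h ∈ Γ'` there is a measurable set `A` such that `A`, `g(A)`,
`h(A)` form a partition of the sphere up to null sets.
-/

open MeasureTheory

namespace Pool.Agent.Results.MP_8c2fb0_lc.FinitelyGenerated

open Pool.Agent.Sph

theorem result (Γ : Subgroup (Matrix.orthogonalGroup (Fin 3) ℝ)) (hΓ : Γ.FG) :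
    ∃ Γ' : Subgroup Γ, Γ'.Normal ∧ Γ'.FiniteIndex ∧ ∀ g ∈ Γ', ∀ h ∈ Γ', ∀ A : Set S2,
      ¬ AESplit ((g : Matrix.orthogonalGroup (Fin 3) ℝ) : Matrix (Fin 3) (Fin 3) ℝ)
        ((h : Matrix.orthogonalGroup (Fin 3) ℝ) : Matrix (Fin 3) (Fin 3) ℝ) A :=
  virtually Γ hΓ

end Pool.Agent.Results.MP_8c2fb0_lc.FinitelyGenerated
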