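import Pool.Agent.Lib_MP_8c2fb0_tt.E4

/-!
# MP_8c2fb0_lc: independent traces

Let `g`, `h` be orthogonal matrices such that two of the three numbers `tr g`, `tr h`,
`tr (gᵀ h)` are algebraically independent over `ℚ`.  Then there is no measurable set `A` such that
`A`, `g(A)`, `h(A)` form a partition of the sphere up to null sets.
-/

open MeasureTheory

namespace Pool.Agent.Results.MP_8c2fb0_lc.IndependentTraces

open Pool.Agent.Sph

theorem result (g h : Matrix (Fin 3) (Fin 3) ℝ)
    (hg : g ∈ Matrix.orthogonalGroup (Fin 3) ℝ) (hh : h ∈ Matrix.orthogonalGroup (Fin 3) ℝ)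
    (hc : AlgebraicIndependent ℚ ![g.trace, h.trace] ∨
      AlgebraicIndependent ℚ ![g.trace, (g.transpose * h).trace] ∨
      AlgebraicIndependent ℚ ![h.trace, (g.transpose * h).trace])
    (A : Set S2) : ¬ AESplit g h A := by
  rcases hc with hc | hc | hc
  · exact Pool.Agent.TTr.no_split_of_traces hg hh (Or.inl (Or.inl hc)) A
  · exact Pool.Agent.TTr.no_split_of_traces hg hh (Or.inr (Or.inl (Or.inl hc))) A
  · exact Pool.Agent.TTr.no_split_of_traces hg hh (Or.inr (Or.inr (Or.inl hc))) A

end Pool.Agent.Results.MP_8c2fb0_lc.IndependentTraces
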