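import Pool.Agent.Lib_MP_8c2fb0_tri.Main

/-!
# MP_8c2fb0_lc: the triangle inequality at every place

Let `g`, `h` be orthogonal matrices.  If some measurable set `A` is such that `A`, `g(A)`, `h(A)`
form a partition of the sphere up to null sets, then for every valuation `v` of the field of real
numbers `v (9 tr(gᵀ h)) ≤ max(1, v (tr g)) max(1, v (tr h))`, and the same inequality holds for the
other permutations of the three traces `tr g`, `tr h`, `tr(gᵀ h)`.  In particular nine times each
of the three traces is integral over the ring generated by the two other ones.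
-/

open MeasureTheory

namespace Pool.Agent.Results.MP_8c2fb0_lc.TriangleInequality

open Pool.Agent.Sph

theorem result (g h : Matrix (Fin 3) (Fin 3) ℝ) (hg : g ∈ Matrix.orthogonalGroup (Fin 3) ℝ)
    (hh : h ∈ Matrix.orthogonalGroup (Fin 3) ℝ) (A : Set S2) (hA : AESplit g h A) :
    (∀ (Γ : Type) [LinearOrderedCommGroupWithZero Γ] (v : Valuation ℝ Γ),
      v (9 * (g.transpose * h).trace) ≤ max 1 (v g.trace) * max 1 (v h.trace) ∧
      v (9 * h.trace) ≤ max 1 (v g.trace) * max 1 (v (g.transpose * h).trace) ∧
      v (9 * g.trace) ≤ max 1 (v h.trace) * max 1 (v (g.transpose * h).trace)) ∧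
    IsIntegral (Subring.closure {g.trace, h.trace}) (9 * (g.transpose * h).trace) ∧
    IsIntegral (Subring.closure {g.trace, (g.transpose * h).trace}) (9 * h.trace) ∧
    IsIntegral (Subring.closure {h.trace, (g.transpose * h).trace}) (9 * g.trace) :=
  ⟨fun _ _ v => ⟨Tri.val_le v hg hh hA, Tri.val_le' v hg hh hA, Tri.val_le'' v hg hh hA⟩,
    Tri.integral_of_val fun V => Tri.val_le V.valuation hg hh hA,
    Tri.integral_of_val fun V => Tri.val_le' V.valuation hg hh hA,
    Tri.integral_of_val fun V => Tri.val_le'' V.valuation hg hh hA⟩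

end Pool.Agent.Results.MP_8c2fb0_lc.TriangleInequality
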