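import Pool.Agent.Lib_MP_8c2fb0_tri.Place2

/-!
# MP_8c2fb0_lc: places at which the pair becomes simultaneously triangular

Let `R` be a commutative ring with an embedding `i` into the complex numbers and a homomorphism `φ`
to a field `k`; let `g = B G B⁻¹`, `h = B H B⁻¹` be orthogonal with matrices `G`, `H` over `R` and
`B` over the complex numbers.  If `φ(G)` and `φ(H)` are simultaneously triangular in some basis of
`k³` and `1 + a ^ n + b ^ n ≠ 0` for their diagonals `a`, `b` and all exponents `n` (three natural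
numbers), then there is no measurable set `A` such that `A`, `g(A)`, `h(A)` form a partition of the
sphere up to null sets.
-/

open MeasureTheory

namespace Pool.Agent.Results.MP_8c2fb0_lc.TriangularReduction

open Pool.Agent.Sph

theorem result (R k : Type) [CommRing R] [Field k] (i : R →+* ℂ) (hi : Function.Injective i)
    (φ : R →+* k) (G H : Matrix (Fin 3) (Fin 3) R) (B B' : Matrix (Fin 3) (Fin 3) ℂ)
    (hB : B * B' = 1) (g h : Matrix (Fin 3) (Fin 3) ℝ)
    (hg : g ∈ Matrix.orthogonalGroup (Fin 3) ℝ) (hh : h ∈ Matrix.orthogonalGroup (Fin 3) ℝ)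
    (hgG : g.map Complex.ofRealHom = B * G.map i * B')
    (hhH : h.map Complex.ofRealHom = B * H.map i * B')
    (C C' : Matrix (Fin 3) (Fin 3) k) (hC : C * C' = 1)
    (hG : ∀ r c, c < r → (C * G.map φ * C') r c = 0)
    (hH : ∀ r c, c < r → (C * H.map φ * C') r c = 0)
    (hn : ∀ n : Fin 3 → ℕ, 1 + ∏ r, (C * G.map φ * C') r r ^ n r +
      ∏ r, (C * H.map φ * C') r r ^ n r ≠ 0) (A : Set S2) : ¬ AESplit g h A :=
  Tri.no_split_of_triangular hi φ hB hg hh hgG hhH hC hG hH hn A

end Pool.Agent.Results.MP_8c2fb0_lc.TriangularReduction
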